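import Mathlib

set_option autoImplicit false

/-!
# The hypersimplex `Δ(2,4)` with a cyclic group of order six

Coordinates: `Z^4` with points `(t, a, b, c)`; the polytope is `t = 1`, `0 ≤ a, b, c ≤ 1`,
`1 ≤ a + b + c ≤ 2`; this is the hypersimplex `Δ(2,4)` (the fourth coordinate is
`2 t - a - b - c`).  The generator of the group is `(t, a, b, c) ↦ (t, t - b, t - c, t - a)`.
-/

open scoped Pointwise

namespace Pool.Agent.K3h47.Hyp

def A : Matrix (Fin 4) (Fin 4) ℤ := !![1,0,0,0; 1,0,-1,0; 1,0,0,-1; 1,-1,0,0]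
def B : Matrix (Fin 3) (Fin 3) ℤ := !![0,-1,0; 0,0,-1; -1,0,0]

theorem A6 : A ^ 6 = 1 := by decide
theorem B6 : B ^ 6 = 1 := by decide

def Au : Matrix.GeneralLinearGroup (Fin 4) ℤ where
  val := A
  inv := A ^ 5
  val_inv := by rw [← pow_succ', A6]
  inv_val := by rw [← pow_succ, A6]

theorem Au6 : Au ^ 6 = 1 := by
  ext1
  simp only [Units.val_pow_eq_pow_val, Units.val_one]
  exact A6

/-- the representation -/
def rho : Multiplicative (ZMod 6) →* Matrix.GeneralLinearGroup (Fin 4) ℤ :=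
  MonoidHom.mk' (fun g => Au ^ (Multiplicative.toAdd g).val) (by
    intro a b
    rw [toAdd_mul, ZMod.val_add, ← pow_eq_pow_mod _ Au6, pow_add])

theorem rho_val (g : Multiplicative (ZMod 6)) :
    (rho g : Matrix (Fin 4) (Fin 4) ℤ) = A ^ (Multiplicative.toAdd g).val := by
  change ((Au ^ (Multiplicative.toAdd g).val : Matrix.GeneralLinearGroup (Fin 4) ℤ) :
    Matrix (Fin 4) (Fin 4) ℤ) = _
  rw [Units.val_pow_eq_pow_val]
  rfl

def sig (g : Multiplicative (ZMod 6)) : Matrix (Fin 3) (Fin 3) ℤ := B ^ (Multiplicative.toAdd g).val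

def V : Finset (Fin 4 → ℤ) :=
  {![1,1,0,0], ![1,0,1,0], ![1,0,0,1], ![1,1,1,0], ![1,1,0,1], ![1,0,1,1]}

theorem V_inv (v : Fin 4 → ℤ) (hv : v ∈ V) : Matrix.mulVec A v ∈ V := by
  revert v; decide

theorem V_inv' (k : ℕ) (v : Fin 4 → ℤ) (hv : v ∈ V) : Matrix.mulVec (A ^ k) v ∈ V := by
  induction k with
  | zero => simpa using hv
  | succ k ih => rw [pow_succ', ← Matrix.mulVec_mulVec]; exact V_inv _ ih

/-- the coercion to real vectors -/
def cst (x : Fin 4 → ℤ) : Fin 4 → ℝ := fun j => ((x j : ℤ) : ℝ)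

def P : Set (Fin 4 → ℝ) := convexHull ℝ (cst '' (V : Set (Fin 4 → ℤ)))

/-- the lattice points of the `m`-th dilate -/
def Cond (m : ℤ) (x : Fin 4 → ℤ) : Prop :=
  x 0 = m ∧ 0 ≤ x 1 ∧ x 1 ≤ m ∧ 0 ≤ x 2 ∧ x 2 ≤ m ∧ 0 ≤ x 3 ∧ x 3 ≤ m ∧
    m ≤ x 1 + x 2 + x 3 ∧ x 1 + x 2 + x 3 ≤ 2 * m

def CondR (x : Fin 4 → ℝ) : Prop :=
  x 0 = 1 ∧ 0 ≤ x 1 ∧ x 1 ≤ 1 ∧ 0 ≤ x 2 ∧ x 2 ≤ 1 ∧ 0 ≤ x 3 ∧ x 3 ≤ 1 ∧
    1 ≤ x 1 + x 2 + x 3 ∧ x 1 + x 2 + x 3 ≤ 2 * 1

theorem condR_convex : Convex ℝ {x | CondR x} := by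
  intro x hx y hy a b ha hb hab
  obtain ⟨h0, h1, h2, h3, h4, h5, h6, h7, h8⟩ := hx
  obtain ⟨k0, k1, k2, k3, k4, k5, k6, k7, k8⟩ := hy
  have hb' : b = 1 - a := by linarith
  subst hb'
  refine ⟨?_, ?_, ?_, ?_, ?_, ?_, ?_, ?_, ?_⟩ <;>
    simp only [Pi.add_apply, Pi.smul_apply, smul_eq_mul] <;> nlinarith

theorem P_subset {x : Fin 4 → ℝ} (hx : x ∈ P) : CondR x := by
  have : P ⊆ {x | CondR x} := by
    refine convexHull_min ?_ condR_convex
    rintro _ ⟨v, hv, rfl⟩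
    simp only [V, Finset.coe_insert, Finset.coe_singleton, Set.mem_insert_iff,
      Set.mem_singleton_iff] at hv
    rcases hv with rfl | rfl | rfl | rfl | rfl | rfl <;>
      simp [CondR, cst] <;> norm_num
  exact this hx

theorem P_convex : Convex ℝ P := convex_convexHull ℝ _

theorem mem_P_of_mem_V {v : Fin 4 → ℤ} (hv : v ∈ V) : cst v ∈ P :=
  subset_convexHull ℝ _ ⟨v, hv, rfl⟩

theorem P_nonempty : P.Nonempty := ⟨_, mem_P_of_mem_V (v := ![1,1,0,0]) (by decide)⟩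

theorem cst_add (x y : Fin 4 → ℤ) : cst (x + y) = cst x + cst y := by
  funext j; simp [cst]

theorem mem_smul_iff (m : ℕ) (x : Fin 4 → ℤ) : cst x ∈ (m : ℝ) • P ↔ Cond m x := by
  constructor
  · rintro ⟨p, hp, hpx⟩
    obtain ⟨h0, h1, h2, h3, h4, h5, h6, h7, h8⟩ := P_subset hp
    have e : ∀ j, ((x j : ℤ) : ℝ) = m * p j := by
      intro j
      have := congrFun hpx j
      simpa [cst] using this.symm
    have hm : (0 : ℝ) ≤ m := by positivity
    refine ⟨?_, ?_, ?_, ?_, ?_, ?_, ?_, ?_, ?_⟩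
    · have := e 0; rw [h0, mul_one] at this; exact_mod_cast this
    all_goals
      have e1 := e 1
      have e2 := e 2
      have e3 := e 3
      have g1 := mul_nonneg hm h1
      have g2 := mul_nonneg hm h3
      have g3 := mul_nonneg hm h5
      have g4 := mul_le_mul_of_nonneg_left h2 hm
      have g5 := mul_le_mul_of_nonneg_left h4 hm
      have g6 := mul_le_mul_of_nonneg_left h6 hm
      have g7 := mul_le_mul_of_nonneg_left h7 hm
      have g8 := mul_le_mul_of_nonneg_left h8 hm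
      rify
      linarith
  · induction m generalizing x with
    | zero =>
      rintro ⟨h0, h1, h2, h3, h4, h5, h6, h7, h8⟩
      have hx : cst x = 0 := by
        funext j
        fin_cases j <;> simp [cst] <;> push_cast at * <;> omega
      rw [hx]
      simp only [Nat.cast_zero]
      rw [Set.zero_smul_set P_nonempty]
      exact Set.mem_zero.2 rfl
    | succ m ih =>
      rintro ⟨h0, h1, h2, h3, h4, h5, h6, h7, h8⟩
      push_cast at *
      have key : ∃ v ∈ V, Cond m (x - v) := by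
        have hc : (1 ≤ x 1 ∧ x 2 ≤ m ∧ x 3 ≤ m ∧ 1 ≤ 2 * ((m : ℤ) + 1) - x 1 - x 2 - x 3) ∨
            (1 ≤ x 2 ∧ x 1 ≤ m ∧ x 3 ≤ m ∧ 1 ≤ 2 * ((m : ℤ) + 1) - x 1 - x 2 - x 3) ∨
            (1 ≤ x 3 ∧ x 1 ≤ m ∧ x 2 ≤ m ∧ 1 ≤ 2 * ((m : ℤ) + 1) - x 1 - x 2 - x 3) ∨
            (1 ≤ x 1 ∧ 1 ≤ x 2 ∧ x 3 ≤ m ∧ 2 * ((m : ℤ) + 1) - x 1 - x 2 - x 3 ≤ m) ∨
            (1 ≤ x 1 ∧ 1 ≤ x 3 ∧ x 2 ≤ m ∧ 2 * ((m : ℤ) + 1) - x 1 - x 2 - x 3 ≤ m) ∨
            (1 ≤ x 2 ∧ 1 ≤ x 3 ∧ x 1 ≤ m ∧ 2 * ((m : ℤ) + 1) - x 1 - x 2 - x 3 ≤ m) := by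
          omega
        rcases hc with h | h | h | h | h | h
        · refine ⟨![1,1,0,0], by decide, ?_⟩
          simp [Cond]; omega
        · refine ⟨![1,0,1,0], by decide, ?_⟩
          simp [Cond]; omega
        · refine ⟨![1,0,0,1], by decide, ?_⟩
          simp [Cond]; omega
        · refine ⟨![1,1,1,0], by decide, ?_⟩
          simp [Cond]; omega
        · refine ⟨![1,1,0,1], by decide, ?_⟩
          simp [Cond]; omega
        · refine ⟨![1,0,1,1], by decide, ?_⟩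
          simp [Cond]; omega
      obtain ⟨v, hv, hxv⟩ := key
      have h1 := ih (x - v) hxv
      rw [P_convex.add_smul (by positivity) (by positivity), one_smul]
      refine ⟨cst (x - v), h1, cst v, mem_P_of_mem_V hv, ?_⟩
      change cst (x - v) + cst v = cst x
      rw [← cst_add, sub_add_cancel]


/-! ### The parallel space -/

def iota : (Fin 3 → ℤ) →ₗ[ℤ] (Fin 4 → ℤ) where
  toFun y := ![0, y 0, y 1, y 2]
  map_add' y z := by funext j; fin_cases j <;> simp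
  map_smul' c y := by funext j; fin_cases j <;> simp

theorem iota_apply (y : Fin 3 → ℤ) : iota y = ![0, y 0, y 1, y 2] := rfl

theorem iota_injective : Function.Injective iota := by
  intro y z h
  rw [iota_apply, iota_apply] at h
  funext j
  fin_cases j
  · exact congrFun h 1
  · exact congrFun h 2
  · exact congrFun h 3

theorem vs_zero {x : Fin 4 → ℝ} (hx : x ∈ vectorSpan ℝ P) : x 0 = 0 := by
  rw [vectorSpan_def] at hx
  induction hx using Submodule.span_induction with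
  | mem x h =>
    obtain ⟨p, hp, q, hq, rfl⟩ := h
    have h1 := (P_subset hp).1
    have h2 := (P_subset hq).1
    simp [h1, h2]
  | zero => rfl
  | add x y _ _ hx hy => simp [hx, hy]
  | smul a x _ hx => simp [hx]

theorem mem_vs {v w : Fin 4 → ℤ} (hv : v ∈ V) (hw : w ∈ V) :
    cst v - cst w ∈ vectorSpan ℝ P :=
  vsub_mem_vectorSpan ℝ (mem_P_of_mem_V hv) (mem_P_of_mem_V hw)

theorem mem_vs_of (x : Fin 4 → ℤ) (hx : x 0 = 0) : cst x ∈ vectorSpan ℝ P := by
  have h1 := mem_vs (v := ![1,1,1,0]) (w := ![1,0,1,0]) (by decide) (by decide)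
  have h2 := mem_vs (v := ![1,1,1,0]) (w := ![1,1,0,0]) (by decide) (by decide)
  have h3 := mem_vs (v := ![1,1,0,1]) (w := ![1,1,0,0]) (by decide) (by decide)
  have e : cst x = ((x 1 : ℤ) : ℝ) • (cst ![1,1,1,0] - cst ![1,0,1,0]) +
      ((x 2 : ℤ) : ℝ) • (cst ![1,1,1,0] - cst ![1,1,0,0]) +
      ((x 3 : ℤ) : ℝ) • (cst ![1,1,0,1] - cst ![1,1,0,0]) := by
    funext j
    fin_cases j <;> simp [cst, hx]
  rw [e]
  exact Submodule.add_mem _ (Submodule.add_mem _ (Submodule.smul_mem _ _ h1)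
    (Submodule.smul_mem _ _ h2)) (Submodule.smul_mem _ _ h3)

theorem iota_range (x : Fin 4 → ℤ) : (∃ y, iota y = x) ↔ cst x ∈ vectorSpan ℝ P := by
  constructor
  · rintro ⟨y, rfl⟩
    exact mem_vs_of _ rfl
  · intro h
    have h0 : x 0 = 0 := by
      have : ((x 0 : ℤ) : ℝ) = 0 := vs_zero h
      exact_mod_cast this
    refine ⟨![x 1, x 2, x 3], ?_⟩
    rw [iota_apply]
    funext j
    fin_cases j <;> simp [h0]

theorem equivariant1 (y : Fin 3 → ℤ) : iota (Matrix.mulVec B y) = Matrix.mulVec A (iota y) := by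
  rw [iota_apply, iota_apply]
  funext j
  fin_cases j <;> simp [A, B, Matrix.mulVec, dotProduct, Fin.sum_univ_succ]

theorem equivariant (k : ℕ) (y : Fin 3 → ℤ) :
    iota (Matrix.mulVec (B ^ k) y) = Matrix.mulVec (A ^ k) (iota y) := by
  induction k with
  | zero => simp
  | succ k ih => rw [pow_succ', pow_succ', ← Matrix.mulVec_mulVec, ← Matrix.mulVec_mulVec,
      equivariant1, ih]

/-! ### Counting fixed points -/

/-- the number of lattice points of the `m`-th dilate fixed by the `k`-th power -/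
noncomputable def cnt (k m : ℕ) : ℕ :=
  Set.ncard {x : Fin 4 → ℤ | Cond m x ∧ Matrix.mulVec (A ^ k) x = x}

theorem fix_odd (k : ℕ) (hk : k = 1 ∨ k = 3 ∨ k = 5) (x : Fin 4 → ℤ) :
    Matrix.mulVec (A ^ k) x = x ↔ 2 * x 1 = x 0 ∧ 2 * x 2 = x 0 ∧ 2 * x 3 = x 0 := by
  have e3 : A ^ 3 = !![1,0,0,0; 1,-1,0,0; 1,0,-1,0; 1,0,0,-1] := by decide
  have e5 : A ^ 5 = !![1,0,0,0; 1,0,0,-1; 1,-1,0,0; 1,0,-1,0] := by decide
  rcases hk with rfl | rfl | rfl
  · rw [pow_one, funext_iff, Fin.forall_fin_succ, Fin.forall_fin_succ, Fin.forall_fin_succ]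
    simp [A, Matrix.mulVec, dotProduct, Fin.sum_univ_succ]
    omega
  · rw [e3, funext_iff, Fin.forall_fin_succ, Fin.forall_fin_succ, Fin.forall_fin_succ]
    simp [Matrix.mulVec, dotProduct, Fin.sum_univ_succ]
    omega
  · rw [e5, funext_iff, Fin.forall_fin_succ, Fin.forall_fin_succ, Fin.forall_fin_succ]
    simp [Matrix.mulVec, dotProduct, Fin.sum_univ_succ]
    omega

theorem fix_even (k : ℕ) (hk : k = 2 ∨ k = 4) (x : Fin 4 → ℤ) :
    Matrix.mulVec (A ^ k) x = x ↔ x 1 = x 2 ∧ x 2 = x 3 := by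
  have e2 : A ^ 2 = !![1,0,0,0; 0,0,0,1; 0,1,0,0; 0,0,1,0] := by decide
  have e4 : A ^ 4 = !![1,0,0,0; 0,0,1,0; 0,0,0,1; 0,1,0,0] := by decide
  rcases hk with rfl | rfl
  · rw [e2, funext_iff, Fin.forall_fin_succ, Fin.forall_fin_succ, Fin.forall_fin_succ]
    simp [Matrix.mulVec, dotProduct, Fin.sum_univ_succ]
    omega
  · rw [e4, funext_iff, Fin.forall_fin_succ, Fin.forall_fin_succ, Fin.forall_fin_succ]
    simp [Matrix.mulVec, dotProduct, Fin.sum_univ_succ]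
    omega

theorem vec_ext {x y : Fin 4 → ℤ} (h0 : x 0 = y 0) (h1 : x 1 = y 1) (h2 : x 2 = y 2)
    (h3 : x 3 = y 3) : x = y := by
  funext j; fin_cases j <;> assumption

theorem cnt_odd (k : ℕ) (hk : k = 1 ∨ k = 3 ∨ k = 5) (m : ℕ) :
    cnt k m = if m % 2 = 0 then 1 else 0 := by
  unfold cnt
  simp only [fix_odd k hk]
  split_ifs with h
  · rw [Set.ncard_eq_one]
    refine ⟨![(m : ℤ), (m : ℤ) / 2, (m : ℤ) / 2, (m : ℤ) / 2], ?_⟩
    ext x
    simp only [Set.mem_ofPred_eq, Set.mem_singleton_iff, Cond]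
    constructor
    · rintro ⟨⟨h0, h1, h2, h3, h4, h5, h6, h7, h8⟩, h9, h10, h11⟩
      apply vec_ext <;> simp <;> omega
    · rintro rfl
      simp
      omega
  · have : {x : Fin 4 → ℤ | Cond m x ∧ 2 * x 1 = x 0 ∧ 2 * x 2 = x 0 ∧ 2 * x 3 = x 0} = ∅ := by
      ext x
      simp only [Set.mem_ofPred_eq, Set.mem_empty_iff_false, iff_false, Cond]
      rintro ⟨⟨h0, h1, h2, h3, h4, h5, h6, h7, h8⟩, h9, h10, h11⟩
      omega
    rw [this, Set.ncard_empty]

theorem cnt_even (k : ℕ) (hk : k = 2 ∨ k = 4) (m : ℕ) :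
    cnt k m = 2 * m / 3 + 1 - (m + 2) / 3 := by
  unfold cnt
  simp only [fix_even k hk]
  have h : {x : Fin 4 → ℤ | Cond m x ∧ x 1 = x 2 ∧ x 2 = x 3} =
      (fun a : ℕ => (![(m : ℤ), (a : ℤ), (a : ℤ), (a : ℤ)] : Fin 4 → ℤ)) ''
        (Finset.Icc ((m + 2) / 3) (2 * m / 3) : Finset ℕ) := by
    ext x
    simp only [Set.mem_ofPred_eq, Set.mem_image, Finset.coe_Icc, Set.mem_Icc, Cond]
    constructor
    · rintro ⟨⟨h0, h1, h2, h3, h4, h5, h6, h7, h8⟩, h9, h10⟩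
      refine ⟨(x 1).toNat, by omega, ?_⟩
      apply vec_ext <;> simp <;> omega
    · rintro ⟨a, ha, rfl⟩
      simp
      omega
  rw [h, Set.ncard_image_of_injective, Set.ncard_coe_finset, Nat.card_Icc]
  intro a b hab
  have := congrFun hab 1
  simpa using this

/-- the triples -/
def tri (m : ℕ) : Finset (Σ _ : ℕ, Σ _ : ℕ, ℕ) :=
  (Finset.range (m + 1)).sigma fun a => (Finset.range (m + 1)).sigma fun b =>
    Finset.Icc (m - (a + b)) (min m (2 * m - (a + b)))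

theorem cnt_zero_eq (m : ℕ) : cnt 0 m = (tri m).card := by
  unfold cnt
  have h : {x : Fin 4 → ℤ | Cond m x ∧ Matrix.mulVec (A ^ 0) x = x} =
      (fun t : (Σ _ : ℕ, Σ _ : ℕ, ℕ) =>
        (![(m : ℤ), (t.1 : ℤ), (t.2.1 : ℤ), (t.2.2 : ℤ)] : Fin 4 → ℤ)) '' (tri m : Finset _) := by
    ext x
    simp only [pow_zero, Matrix.one_mulVec, and_true, Set.mem_ofPred_eq, Set.mem_image,
      Finset.mem_coe, tri, Finset.mem_sigma, Finset.mem_range, Finset.mem_Icc, Cond]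
    constructor
    · rintro ⟨h0, h1, h2, h3, h4, h5, h6, h7, h8⟩
      refine ⟨⟨(x 1).toNat, (x 2).toNat, (x 3).toNat⟩, ?_, ?_⟩
      · dsimp only
        omega
      · apply vec_ext <;> simp <;> omega
    · rintro ⟨⟨a, b, c⟩, hh, rfl⟩
      dsimp only at hh
      simp
      omega
  rw [h, Set.ncard_image_of_injective, Set.ncard_coe_finset]
  rintro ⟨a, b, c⟩ ⟨a', b', c'⟩ hab
  have h1 := congrFun hab 1
  have h2 := congrFun hab 2
  have h3 := congrFun hab 3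
  simp at h1 h2 h3
  subst h1 h2 h3
  rfl

theorem inner_sum (a r : ℕ) :
    2 * (∑ b ∈ Finset.range (a + r + 1),
      ((Finset.Icc (a + r - (a + b)) (min (a + r) (2 * (a + r) - (a + b)))).card : ℤ)) =
      2 * (r + 1) * (a + 1) + r * (r + 1) + 2 * a * r + a * (a + 1) := by
  have h1 : ∀ r' ≤ r, 2 * (∑ b ∈ Finset.range (r' + 1),
      ((Finset.Icc (a + r - (a + b)) (min (a + r) (2 * (a + r) - (a + b)))).card : ℤ)) =
      2 * (r' + 1) * (a + 1) + r' * (r' + 1) := by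
    intro r' hr'
    induction r' with
    | zero =>
      rw [Finset.sum_range_one, Nat.card_Icc]
      push_cast
      have : min (a + r) (2 * (a + r) - (a + 0)) + 1 - (a + r - (a + 0)) = a + 1 := by omega
      rw [this]
      push_cast; ring
    | succ k ih =>
      rw [Finset.sum_range_succ, mul_add, ih (by omega), Nat.card_Icc]
      have : min (a + r) (2 * (a + r) - (a + (k + 1))) + 1 - (a + r - (a + (k + 1))) =
        a + k + 2 := by omega
      rw [this]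
      push_cast; ring
  have h2 : ∀ j ≤ a, 2 * (∑ b ∈ Finset.range (r + 1 + j),
      ((Finset.Icc (a + r - (a + b)) (min (a + r) (2 * (a + r) - (a + b)))).card : ℤ)) =
      2 * (r + 1) * (a + 1) + r * (r + 1) + 2 * j * (a + r) - j * (j - 1) := by
    intro j hj
    induction j with
    | zero => rw [Nat.add_zero, h1 r le_rfl]; push_cast; ring
    | succ j ih =>
      rw [← Nat.add_assoc, Finset.sum_range_succ, mul_add, ih (by omega), Nat.card_Icc]
      have : min (a + r) (2 * (a + r) - (a + (r + 1 + j))) + 1 - (a + r - (a + (r + 1 + j))) =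
        a + r - j := by omega
      rw [this, Nat.cast_sub (by omega)]
      push_cast; ring
  have h3 := h2 a le_rfl
  rw [show r + 1 + a = a + r + 1 by ring] at h3
  rw [h3]; ring

theorem cnt_zero (m : ℕ) :
    3 * (cnt 0 m : ℤ) = 3 * (m + 1) ^ 3 - m * (m + 1) * (m + 2) := by
  rw [cnt_zero_eq, tri, Finset.card_sigma]
  simp only [Finset.card_sigma]
  push_cast
  have h1 : ∀ n ≤ m + 1, 6 * (∑ a ∈ Finset.range n, ∑ b ∈ Finset.range (m + 1),
      ((Finset.Icc (m - (a + b)) (min m (2 * m - (a + b)))).card : ℤ)) =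
      n * (3 * (m + 1) * (m + 2) + 3 * m * (n - 1) - (n - 1) * (2 * n - 1)) := by
    intro n hn
    induction n with
    | zero => simp
    | succ n ih =>
      rw [Finset.sum_range_succ, mul_add, ih (by omega)]
      obtain ⟨r, rfl⟩ : ∃ r, m = n + r := ⟨m - n, by omega⟩
      have := inner_sum n r
      push_cast at *
      linear_combination 3 * this
  have h2 := h1 (m + 1) le_rfl
  push_cast at h2 ⊢
  linarith

/-! ### The power series -/

open PowerSeries in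
/-- the series of the counts -/
noncomputable def F (k : ℕ) : PowerSeries ℤ := PowerSeries.mk fun m => (cnt k m : ℤ)

/-- the denominators -/
noncomputable def D (k : ℕ) : Polynomial ℤ :=
  Matrix.det (1 - (Polynomial.X : Polynomial ℤ) • (B ^ k).map Polynomial.C)

theorem D0 : D 0 = (1 - Polynomial.X) ^ 3 := by
  unfold D
  rw [pow_zero, Matrix.det_fin_three]
  simp
  ring

theorem B1 : B ^ 1 = !![0,-1,0; 0,0,-1; -1,0,0] := by decide
theorem B2 : B ^ 2 = !![0,0,1; 1,0,0; 0,1,0] := by decide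
theorem B3 : B ^ 3 = !![-1,0,0; 0,-1,0; 0,0,-1] := by decide
theorem B4 : B ^ 4 = !![0,1,0; 0,0,1; 1,0,0] := by decide
theorem B5 : B ^ 5 = !![0,0,-1; -1,0,0; 0,-1,0] := by decide

theorem D1 : D 1 = 1 + Polynomial.X ^ 3 := by
  unfold D
  rw [B1, Matrix.det_fin_three]
  simp
  ring

theorem D2 : D 2 = 1 - Polynomial.X ^ 3 := by
  unfold D
  rw [B2, Matrix.det_fin_three]
  simp
  ring

theorem D3 : D 3 = (1 + Polynomial.X) ^ 3 := by
  unfold D
  rw [B3, Matrix.det_fin_three]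
  simp
  ring

theorem D4 : D 4 = 1 - Polynomial.X ^ 3 := by
  unfold D
  rw [B4, Matrix.det_fin_three]
  simp
  ring

theorem D5 : D 5 = 1 + Polynomial.X ^ 3 := by
  unfold D
  rw [B5, Matrix.det_fin_three]
  simp
  ring

/-- the equivariant `h*`-series -/
noncomputable def Ph (k : ℕ) : PowerSeries ℤ :=
  F k * (1 - PowerSeries.X) * ((D k : Polynomial ℤ) : PowerSeries ℤ)

theorem coeff_F (k i : ℕ) : PowerSeries.coeff i (F k) = (cnt k i : ℤ) := by
  simp [F]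

theorem Ph0 (i : ℕ) : PowerSeries.coeff i (Ph 0) =
    (cnt 0 i : ℤ) - 4 * (if 1 ≤ i then (cnt 0 (i - 1) : ℤ) else 0)
      + 6 * (if 2 ≤ i then (cnt 0 (i - 2) : ℤ) else 0)
      - 4 * (if 3 ≤ i then (cnt 0 (i - 3) : ℤ) else 0)
      + (if 4 ≤ i then (cnt 0 (i - 4) : ℤ) else 0) := by
  have : Ph 0 = F 0 - 4 * (F 0 * PowerSeries.X ^ 1) + 6 * (F 0 * PowerSeries.X ^ 2)
      - 4 * (F 0 * PowerSeries.X ^ 3) + F 0 * PowerSeries.X ^ 4 := by
    rw [Ph, D0]
    push_cast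
    ring
  rw [this]
  have e4 : (4 : PowerSeries ℤ) = PowerSeries.C (4 : ℤ) := by simp
  have e6 : (6 : PowerSeries ℤ) = PowerSeries.C (6 : ℤ) := by simp
  rw [e4, e6]
  simp only [map_add, map_sub, PowerSeries.coeff_C_mul, PowerSeries.coeff_mul_X_pow', coeff_F]

theorem Ph_even (k : ℕ) (hk : k = 2 ∨ k = 4) (i : ℕ) : PowerSeries.coeff i (Ph k) =
    (cnt k i : ℤ) - (if 1 ≤ i then (cnt k (i - 1) : ℤ) else 0)
      - (if 3 ≤ i then (cnt k (i - 3) : ℤ) else 0)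
      + (if 4 ≤ i then (cnt k (i - 4) : ℤ) else 0) := by
  have hD : D k = 1 - Polynomial.X ^ 3 := by
    rcases hk with rfl | rfl
    · exact D2
    · exact D4
  have : Ph k = F k - (F k * PowerSeries.X ^ 1)
      - (F k * PowerSeries.X ^ 3) + F k * PowerSeries.X ^ 4 := by
    rw [Ph, hD]
    push_cast
    ring
  rw [this]
  simp only [map_add, map_sub, PowerSeries.coeff_mul_X_pow', coeff_F]

theorem Ph_15 (k : ℕ) (hk : k = 1 ∨ k = 5) (i : ℕ) : PowerSeries.coeff i (Ph k) =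
    (cnt k i : ℤ) - (if 1 ≤ i then (cnt k (i - 1) : ℤ) else 0)
      + (if 3 ≤ i then (cnt k (i - 3) : ℤ) else 0)
      - (if 4 ≤ i then (cnt k (i - 4) : ℤ) else 0) := by
  have hD : D k = 1 + Polynomial.X ^ 3 := by
    rcases hk with rfl | rfl
    · exact D1
    · exact D5
  have : Ph k = F k - (F k * PowerSeries.X ^ 1)
      + (F k * PowerSeries.X ^ 3) - F k * PowerSeries.X ^ 4 := by
    rw [Ph, hD]
    push_cast
    ring
  rw [this]
  simp only [map_add, map_sub, PowerSeries.coeff_mul_X_pow', coeff_F]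

theorem Ph3 (i : ℕ) : PowerSeries.coeff i (Ph 3) =
    (cnt 3 i : ℤ) + 2 * (if 1 ≤ i then (cnt 3 (i - 1) : ℤ) else 0)
      - 2 * (if 3 ≤ i then (cnt 3 (i - 3) : ℤ) else 0)
      - (if 4 ≤ i then (cnt 3 (i - 4) : ℤ) else 0) := by
  have : Ph 3 = F 3 + 2 * (F 3 * PowerSeries.X ^ 1)
      - 2 * (F 3 * PowerSeries.X ^ 3) - F 3 * PowerSeries.X ^ 4 := by
    rw [Ph, D3]
    push_cast
    ring
  rw [this]
  have e2 : (2 : PowerSeries ℤ) = PowerSeries.C (2 : ℤ) := by simp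
  rw [e2]
  simp only [map_add, map_sub, PowerSeries.coeff_C_mul, PowerSeries.coeff_mul_X_pow', coeff_F]

theorem rec_even (j : ℕ) : ((2 * (j + 4) / 3 + 1 - (j + 4 + 2) / 3 : ℕ) : ℤ) -
    ((2 * (j + 3) / 3 + 1 - (j + 3 + 2) / 3 : ℕ) : ℤ) -
    ((2 * (j + 1) / 3 + 1 - (j + 1 + 2) / 3 : ℕ) : ℤ) +
    ((2 * j / 3 + 1 - (j + 2) / 3 : ℕ) : ℤ) = 0 := by
  obtain ⟨q, hq⟩ : ∃ q, j = 3 * q ∨ j = 3 * q + 1 ∨ j = 3 * q + 2 := ⟨j / 3, by omega⟩
  rcases hq with rfl | rfl | rfl <;> omega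

theorem Ph_vanish (k : ℕ) (hk : k < 6) (i : ℕ) (hi : 4 ≤ i) : PowerSeries.coeff i (Ph k) = 0 := by
  obtain ⟨j, rfl⟩ : ∃ j, i = j + 4 := ⟨i - 4, by omega⟩
  interval_cases k
  · rw [Ph0]
    simp only [show 1 ≤ j + 4 by omega, show 2 ≤ j + 4 by omega, show 3 ≤ j + 4 by omega,
      show 4 ≤ j + 4 by omega, if_true, show j + 4 - 1 = j + 3 by omega,
      show j + 4 - 2 = j + 2 by omega, show j + 4 - 3 = j + 1 by omega, Nat.add_sub_cancel]
    have h0 := cnt_zero j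
    have h1 := cnt_zero (j + 1)
    have h2 := cnt_zero (j + 2)
    have h3 := cnt_zero (j + 3)
    have h4 := cnt_zero (j + 4)
    push_cast at *
    have : 3 * (((cnt 0 (j + 4) : ℤ)) - 4 * (cnt 0 (j + 3) : ℤ) + 6 * (cnt 0 (j + 2) : ℤ)
        - 4 * (cnt 0 (j + 1) : ℤ) + (cnt 0 j : ℤ)) = 0 := by
      linear_combination h4 - 4 * h3 + 6 * h2 - 4 * h1 + h0
    omega
  · rw [Ph_15 1 (by simp)]
    simp only [cnt_odd 1 (by simp)]
    split_ifs <;> push_cast <;> omega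
  · rw [Ph_even 2 (by simp)]
    simp only [cnt_even 2 (by simp), show 1 ≤ j + 4 by omega, show 3 ≤ j + 4 by omega,
      show 4 ≤ j + 4 by omega, if_true, show j + 4 - 1 = j + 3 by omega,
      show j + 4 - 3 = j + 1 by omega, Nat.add_sub_cancel]
    exact rec_even j
  · rw [Ph3]
    simp only [cnt_odd 3 (by simp)]
    split_ifs <;> push_cast <;> omega
  · rw [Ph_even 4 (by simp)]
    simp only [cnt_even 4 (by simp), show 1 ≤ j + 4 by omega, show 3 ≤ j + 4 by omega,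
      show 4 ≤ j + 4 by omega, if_true, show j + 4 - 1 = j + 3 by omega,
      show j + 4 - 3 = j + 1 by omega, Nat.add_sub_cancel]
    exact rec_even j
  · rw [Ph_15 5 (by simp)]
    simp only [cnt_odd 5 (by simp)]
    split_ifs <;> push_cast <;> omega

theorem cnt00 : cnt 0 0 = 1 := by
  have := cnt_zero 0
  push_cast at this
  omega

theorem cnt01 : cnt 0 1 = 6 := by
  have := cnt_zero 1
  push_cast at this
  omega

theorem one0 : PowerSeries.coeff 1 (Ph 0) = 2 := by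
  rw [Ph0]; simp [cnt00, cnt01]

theorem one1 : PowerSeries.coeff 1 (Ph 1) = -1 := by
  rw [Ph_15 1 (by simp)]; simp [cnt_odd 1]

theorem one2 : PowerSeries.coeff 1 (Ph 2) = -1 := by
  rw [Ph_even 2 (by simp)]; simp [cnt_even 2]

theorem one3 : PowerSeries.coeff 1 (Ph 3) = 2 := by
  rw [Ph3]; simp [cnt_odd 3]

theorem one4 : PowerSeries.coeff 1 (Ph 4) = -1 := by
  rw [Ph_even 4 (by simp)]; simp [cnt_even 4]

theorem one5 : PowerSeries.coeff 1 (Ph 5) = -1 := by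
  rw [Ph_15 5 (by simp)]; simp [cnt_odd 5]

end Pool.Agent.K3h47.Hyp
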